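import Mathlib

/-!
# MP_945c24_nt: the unit attached to a repunit is not a proper power
-/

set_option autoImplicit false

namespace Pool.Agent.MP_945c24_nt

/-- Chebyshev polynomials of the third kind. -/
def W (U : ℤ) : ℕ → ℤ
  | 0 => 1
  | 1 => 2 * U - 1
  | (i + 2) => 2 * U * W U (i + 1) - W U i

theorem W_odd (U : ℤ) (i : ℕ) : Odd (W U i) ∧ Odd (W U (i + 1)) := by
  induction i with
  | zero =>
    refine ⟨odd_one, ?_⟩
    show Odd (2 * U - 1)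
    exact ⟨U - 1, by ring⟩
  | succ i ih =>
    refine ⟨ih.2, ?_⟩
    show Odd (2 * U * W U (i + 1) - W U i)
    have h : Even (2 * U * W U (i + 1)) := ⟨U * W U (i + 1), by ring⟩
    exact h.sub_odd ih.1

theorem W_mod (U : ℤ) (i : ℕ) : (U + 1) ∣ W U i - (-1) ^ i * (2 * i + 1) ∧
    (U + 1) ∣ W U (i + 1) - (-1) ^ (i + 1) * (2 * (i + 1 : ℕ) + 1) := by
  induction i with
  | zero =>
    refine ⟨⟨0, by simp [W]⟩, ⟨2, ?_⟩⟩
    show 2 * U - 1 - (-1) ^ (0 + 1) * (2 * ((0 + 1 : ℕ) : ℤ) + 1) = (U + 1) * 2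
    norm_num
    ring
  | succ i ih =>
    refine ⟨ih.2, ?_⟩
    obtain ⟨⟨a, ha⟩, ⟨b, hb⟩⟩ := ih
    refine ⟨2 * U * b - a + 2 * (-1) ^ (i + 1) * (2 * (i + 1 : ℕ) + 1), ?_⟩
    have e : W U (i + 1 + 1) = 2 * U * W U (i + 1) - W U i := rfl
    rw [e]
    have h1 : W U i = (U + 1) * a + (-1) ^ i * (2 * i + 1) := by linarith
    have h2 : W U (i + 1) = (U + 1) * b + (-1) ^ (i + 1) * (2 * (i + 1 : ℕ) + 1) := by linarith
    rw [h1, h2]
    push_cast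
    ring

theorem W_mono {U : ℤ} (hU : 3 ≤ U) (i : ℕ) : 5 ≤ W U (i + 1) ∧ W U (i + 1) ≤ W U (i + 2) := by
  induction i with
  | zero =>
    have h1 : W U (0 + 1) = 2 * U - 1 := rfl
    have h2 : W U (0 + 2) = 2 * U * (2 * U - 1) - 1 := rfl
    rw [h1, h2]
    constructor
    · linarith
    · nlinarith
  | succ i ih =>
    have e : W U (i + 1 + 2) = 2 * U * W U (i + 2) - W U (i + 1) := rfl
    have e' : W U (i + 1 + 1) = W U (i + 2) := rfl
    rw [e, e']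
    obtain ⟨h1, h2⟩ := ih
    constructor
    · linarith
    · nlinarith

theorem W_real {β : ℝ} {U : ℤ} (hβ : 0 < β) (h : β ^ 2 = 2 * U * β - 1) (i : ℕ) :
    (W U i : ℝ) * (β + 1) = β ^ (i + 1) + β⁻¹ ^ i ∧
      (W U (i + 1) : ℝ) * (β + 1) = β ^ (i + 1 + 1) + β⁻¹ ^ (i + 1) := by
  have hb : β * β⁻¹ = 1 := mul_inv_cancel₀ hβ.ne'
  have h2 : β + β⁻¹ = 2 * U := by
    field_simp
    linarith
  induction i with
  | zero =>
    refine ⟨by simp [W], ?_⟩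
    show ((2 * U - 1 : ℤ) : ℝ) * (β + 1) = β ^ (0 + 1 + 1) + β⁻¹ ^ (0 + 1)
    push_cast
    rw [← h2]
    ring_nf
    rw [hb]
    ring
  | succ i ih =>
    refine ⟨ih.2, ?_⟩
    have e : W U (i + 1 + 1) = 2 * U * W U (i + 1) - W U i := rfl
    rw [e]
    push_cast
    have h3 : (2 * (U : ℝ) * W U (i + 1) - W U i) * (β + 1) =
        2 * U * ((W U (i + 1) : ℝ) * (β + 1)) - (W U i : ℝ) * (β + 1) := by ring
    rw [h3, ih.1, ih.2, ← h2]
    have h4 : β⁻¹ * β ^ (i + 1 + 1) = β ^ (i + 1) := by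
      rw [pow_succ β (i + 1)]
      calc β⁻¹ * (β ^ (i + 1) * β) = (β * β⁻¹) * β ^ (i + 1) := by ring
        _ = β ^ (i + 1) := by rw [hb, one_mul]
    have h5 : β * β⁻¹ ^ (i + 1) = β⁻¹ ^ i := by
      rw [pow_succ β⁻¹ i]
      calc β * (β⁻¹ ^ i * β⁻¹) = (β * β⁻¹) * β⁻¹ ^ i := by ring
        _ = β⁻¹ ^ i := by rw [hb, one_mul]
    calc (β + β⁻¹) * (β ^ (i + 1 + 1) + β⁻¹ ^ (i + 1)) - (β ^ (i + 1) + β⁻¹ ^ i) =
        β ^ (i + 1 + 1 + 1) + β⁻¹ * β ^ (i + 1 + 1) + β * β⁻¹ ^ (i + 1) + β⁻¹ ^ (i + 1 + 1) -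
          (β ^ (i + 1) + β⁻¹ ^ i) := by ring
      _ = _ := by rw [h4, h5]; ring

/-- The square of `W` divides. -/
theorem W_sq {β : ℝ} {U X : ℤ} (hβ : 0 < β) (h : β ^ 2 = 2 * U * β - 1) (i : ℕ)
    (hX : (β ^ (2 * i + 1)) ^ 2 = 2 * X * β ^ (2 * i + 1) - 1) :
    (U + 1) * W U i ^ 2 = X + 1 := by
  have h1 := (W_real hβ h i).1
  have hb : β * β⁻¹ = 1 := mul_inv_cancel₀ hβ.ne'
  have h2 : (W U i : ℝ) * (β + 1) * β ^ i = β ^ (2 * i + 1) + 1 := by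
    rw [h1, add_mul, ← pow_add, ← mul_pow, mul_comm β⁻¹ β, hb, one_pow]
    congr 2
    ring
  have h3 : (β + 1) ^ 2 = 2 * (U + 1) * β := by linarith [h]
  have h4 : (β ^ (2 * i + 1) + 1) ^ 2 = 2 * (X + 1) * β ^ (2 * i + 1) := by linarith [hX]
  rw [← h2] at h4
  have h5 : ((W U i : ℝ) * (β + 1) * β ^ i) ^ 2 =
      (W U i : ℝ) ^ 2 * (β + 1) ^ 2 * (β ^ i) ^ 2 := by ring
  rw [h5, h3] at h4
  have h6 : (β ^ i) ^ 2 * β = β ^ (2 * i + 1) := by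
    rw [← pow_mul, ← pow_succ]
    congr 1
    ring
  have h7 : ((U + 1) * W U i ^ 2 : ℝ) * (2 * β ^ (2 * i + 1)) =
      (X + 1) * (2 * β ^ (2 * i + 1)) := by
    rw [← h6] at h4 ⊢
    linarith [h4]
  have h8 : (2 * β ^ (2 * i + 1) : ℝ) ≠ 0 := by positivity
  have h9 := mul_right_cancel₀ h8 h7
  exact_mod_cast h9

/-- Powers keep the shape. -/
theorem cheb {β : ℝ} {U : ℤ} (hβ : 0 < β) (h : β ^ 2 = 2 * U * β - 1) (hU : Odd U) (r : ℕ) :
    ∃ T T' : ℤ, Odd T ∧ Odd T' ∧ β ^ r + β⁻¹ ^ r = 2 * T ∧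
      β ^ (r + 1) + β⁻¹ ^ (r + 1) = 2 * T' := by
  have hb : β * β⁻¹ = 1 := mul_inv_cancel₀ hβ.ne'
  have h2 : β + β⁻¹ = 2 * U := by
    field_simp
    linarith
  induction r with
  | zero =>
    refine ⟨1, U, odd_one, hU, by norm_num, ?_⟩
    simp only [zero_add, pow_one]
    exact h2
  | succ r ih =>
    obtain ⟨T, T', hT, hT', e, e'⟩ := ih
    refine ⟨T', 2 * U * T' - T, hT', ?_, e', ?_⟩
    · have : Even (2 * U * T') := ⟨U * T', by ring⟩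
      exact this.sub_odd hT
    · have h4 : β⁻¹ * β ^ (r + 1) = β ^ r := by
        rw [pow_succ β r]
        calc β⁻¹ * (β ^ r * β) = (β * β⁻¹) * β ^ r := by ring
          _ = β ^ r := by rw [hb, one_mul]
      have h5 : β * β⁻¹ ^ (r + 1) = β⁻¹ ^ r := by
        rw [pow_succ β⁻¹ r]
        calc β * (β⁻¹ ^ r * β⁻¹) = (β * β⁻¹) * β⁻¹ ^ r := by ring
          _ = β⁻¹ ^ r := by rw [hb, one_mul]
      push_cast
      calc β ^ (r + 1 + 1) + β⁻¹ ^ (r + 1 + 1) =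
          (β + β⁻¹) * (β ^ (r + 1) + β⁻¹ ^ (r + 1)) -
            (β⁻¹ * β ^ (r + 1) + β * β⁻¹ ^ (r + 1)) := by ring
        _ = (β + β⁻¹) * (β ^ (r + 1) + β⁻¹ ^ (r + 1)) - (β ^ r + β⁻¹ ^ r) := by rw [h4, h5]
        _ = 2 * (2 * U * T' - T) := by rw [h2, e', e]; ring

theorem cheb' {β : ℝ} {U : ℤ} (hβ : 1 < β) (h : β ^ 2 = 2 * U * β - 1) (hU : Odd U) {r : ℕ}
    (hr : 1 ≤ r) : ∃ T : ℤ, Odd T ∧ 3 ≤ T ∧ 1 < β ^ r ∧ (β ^ r) ^ 2 = 2 * T * β ^ r - 1 := by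
  have hβ0 : 0 < β := by linarith
  obtain ⟨T, -, hT, -, e, -⟩ := cheb hβ0 h hU r
  have h1 : 1 < β ^ r := one_lt_pow₀ hβ (by omega)
  have h2 : β ^ r * β⁻¹ ^ r = 1 := by
    rw [← mul_pow, mul_inv_cancel₀ hβ0.ne', one_pow]
  have h3 : (β ^ r) ^ 2 = 2 * T * β ^ r - 1 := by
    rw [← e]
    linear_combination -h2
  refine ⟨T, hT, ?_, h1, h3⟩
  have h4 : (1 : ℝ) < T := by
    have h5 : 0 < (β ^ r - 1) ^ 2 := by
      have : β ^ r - 1 ≠ 0 := by linarith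
      positivity
    nlinarith
  have h5 : 1 < T := by exact_mod_cast h4
  obtain ⟨k, hk⟩ := hT
  omega

/-- The main 5-adic argument. -/
theorem five {U : ℤ} {i n : ℕ} (hU3 : 3 ≤ U) (hi : 1 ≤ i) (hn : Odd n)
    (h : (U + 1) * W U i ^ 2 = 2 * 10 ^ n) : (5 : ℤ) ∣ 2 * i + 1 ∧ i ≠ 2 := by
  have hW5 : 5 ≤ W U i := by
    obtain ⟨k, rfl⟩ : ∃ k, i = k + 1 := ⟨i - 1, by omega⟩
    exact (W_mono hU3 k).1
  have hWodd := (W_odd U i).1
  have hd1 : W U i ^ 2 ∣ 2 ^ (n + 1) * 5 ^ n := by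
    refine ⟨U + 1, ?_⟩
    have : (2 : ℤ) ^ (n + 1) * 5 ^ n = 2 * 10 ^ n := by
      rw [show (10 : ℤ) = 2 * 5 by norm_num, mul_pow]
      ring
    rw [this, ← h]
    ring
  have hcop : IsCoprime (W U i ^ 2) ((2 : ℤ) ^ (n + 1)) := by
    apply IsCoprime.pow
    obtain ⟨k, hk⟩ := hWodd
    exact ⟨1, -k, by rw [hk]; ring⟩
  have hd2 : W U i ^ 2 ∣ 5 ^ n := hcop.dvd_of_dvd_mul_left hd1
  have hd3 : (W U i).natAbs ^ 2 ∣ 5 ^ n := by
    have := Int.natAbs_dvd_natAbs.2 hd2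
    rwa [Int.natAbs_pow, Int.natAbs_pow] at this
  have hd4 : (W U i).natAbs ∣ 5 ^ n := (Dvd.intro_left _ (by ring)).trans hd3
  obtain ⟨a, ha, hWa⟩ := (Nat.dvd_prime_pow Nat.prime_five).1 hd4
  have hWz : W U i = 5 ^ a := by
    have : ((W U i).natAbs : ℤ) = W U i := Int.natAbs_of_nonneg (by linarith)
    rw [← this, hWa]
    push_cast
    rfl
  have ha1 : 1 ≤ a := by
    rcases Nat.eq_zero_or_pos a with h0 | h0
    · rw [h0, pow_zero] at hWz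
      omega
    · exact h0
  have h2a : 2 * a ≤ n := by
    rw [hWa, ← pow_mul] at hd3
    have := (Nat.pow_dvd_pow_iff_le_right (by norm_num : 1 < 5)).1 hd3
    omega
  have h2a' : 2 * a < n := by
    obtain ⟨k, hk⟩ := hn
    omega
  have h5U : (5 : ℤ) ∣ U + 1 := by
    have e : (U + 1) * 5 ^ (2 * a) = (2 * 2 ^ n * 5 ^ (n - 2 * a)) * 5 ^ (2 * a) := by
      have e1 : (5 : ℤ) ^ (n - 2 * a) * 5 ^ (2 * a) = 5 ^ n := by
        rw [← pow_add]
        congr 1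
        omega
      have e2 : (2 * 2 ^ n * 5 ^ (n - 2 * a)) * (5 : ℤ) ^ (2 * a) =
          2 * 2 ^ n * (5 ^ (n - 2 * a) * 5 ^ (2 * a)) := by ring
      rw [e2, e1]
      have e3 : (2 : ℤ) * 2 ^ n * 5 ^ n = 2 * 10 ^ n := by
        rw [show (10 : ℤ) = 2 * 5 by norm_num, mul_pow]
        ring
      rw [e3, ← h, hWz]
      ring
    have e' := mul_right_cancel₀ (by positivity : (5 : ℤ) ^ (2 * a) ≠ 0) e
    rw [e']
    obtain ⟨b, hb⟩ : ∃ b, n - 2 * a = b + 1 := ⟨n - 2 * a - 1, by omega⟩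
    rw [hb, pow_succ]
    exact ⟨2 * 2 ^ n * 5 ^ b, by ring⟩
  have h5W : (5 : ℤ) ∣ W U i := by
    rw [hWz]
    exact dvd_pow_self 5 (by omega)
  refine ⟨?_, ?_⟩
  · have h1 := h5U.trans (W_mod U i).1
    have h2 : (5 : ℤ) ∣ (-1) ^ i * (2 * i + 1) := by
      have := dvd_sub h5W h1
      simpa using this
    rcases neg_one_pow_eq_or ℤ i with h3 | h3
    · rw [h3, one_mul] at h2
      exact h2
    · rw [h3, neg_one_mul] at h2
      exact (dvd_neg.1 h2)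
  · rintro rfl
    have e : W U 2 = 2 * U * (2 * U - 1) - 1 := rfl
    obtain ⟨r, hr⟩ := h5U
    have hUr : U = 5 * r - 1 := by linarith
    rw [e, hUr] at hWz
    have ha2 : a < 2 := by
      by_contra hcon
      obtain ⟨b, rfl⟩ : ∃ b, a = b + 2 := ⟨a - 2, by omega⟩
      rw [pow_add] at hWz
      have : (5 : ℤ) = 25 * (5 ^ b - 4 * r ^ 2 + 2 * r) := by linarith
      omega
    have ha3 : a = 1 := by omega
    rw [ha3, pow_one] at hWz
    have hr1 : 1 ≤ r := by omega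
    nlinarith

/-- The exponent is 1 in the odd case. -/
theorem odd_case {β : ℝ} {U : ℤ} {n j : ℕ} (hβ : 1 < β) (h : β ^ 2 = 2 * U * β - 1) (hU : Odd U)
    (hj : Odd j) (hn : Odd n) {X : ℤ} (hX : X + 1 = 2 * 10 ^ n)
    (hα : (β ^ j) ^ 2 = 2 * X * β ^ j - 1) : j = 1 := by
  obtain ⟨i, hi⟩ := hj
  rcases Nat.eq_zero_or_pos i with h0 | h0
  · omega
  exfalso
  obtain ⟨T, -, hT3, -, hT2⟩ := cheb' hβ h hU (r := 1) le_rfl
  rw [pow_one] at hT2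
  have hTU : T = U := by
    have h1 : (2 * β) * T = (2 * β) * (U : ℝ) := by linarith
    have h2 : (2 * β : ℝ) ≠ 0 := by positivity
    exact_mod_cast mul_left_cancel₀ h2 h1
  rw [hTU] at hT3
  rw [hi] at hα
  have h1 := W_sq (by linarith) h i hα
  rw [hX] at h1
  obtain ⟨h2, -⟩ := five hT3 h0 hn h1
  have h3 : 5 ∣ j := by
    rw [hi]
    exact_mod_cast h2
  obtain ⟨r, hr⟩ := h3
  have hr1 : 1 ≤ r := by omega
  obtain ⟨T', -, hT3', -, hT2'⟩ := cheb' hβ h hU hr1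
  rw [← hi] at hα
  have h4 : (β ^ r) ^ (2 * 2 + 1) = β ^ j := by
    rw [← pow_mul, hr]
    congr 1
    ring
  rw [← h4] at hα
  have h5 := W_sq (pow_pos (by linarith) r) hT2' 2 hα
  rw [hX] at h5
  exact (five hT3' (by norm_num) hn h5).2 rfl

/-- Powers of a unit. -/
theorem pw (d U V : ℕ) (i : ℕ) : ∃ A B : ℕ, (U + V * Real.sqrt d) ^ i = A + B * Real.sqrt d ∧
    (A : ℤ) ^ 2 - d * (B : ℤ) ^ 2 = ((U : ℤ) ^ 2 - d * (V : ℤ) ^ 2) ^ i := by
  have hsq : Real.sqrt (d : ℝ) * Real.sqrt d = d := Real.mul_self_sqrt (Nat.cast_nonneg d)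
  induction i with
  | zero => exact ⟨1, 0, by simp, by simp⟩
  | succ i ih =>
    obtain ⟨A, B, h1, h2⟩ := ih
    refine ⟨A * U + d * B * V, A * V + B * U, ?_, ?_⟩
    · rw [pow_succ, h1]
      push_cast
      linear_combination (B * V : ℝ) * hsq
    · rw [pow_succ ((U : ℤ) ^ 2 - d * (V : ℤ) ^ 2) i, ← h2]
      push_cast
      ring

theorem uniq {d : ℕ} (hd : ¬ IsSquare d) {A B X Y : ℕ}
    (h : (A : ℝ) + B * Real.sqrt d = X + Y * Real.sqrt d) : A = X ∧ B = Y := by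
  have hirr : Irrational (Real.sqrt (d : ℝ)) := irrational_sqrt_natCast_iff.2 hd
  have hB : (B : ℤ) - Y = 0 := by
    by_contra hcon
    apply hirr
    refine ⟨((X : ℚ) - A) / ((B : ℤ) - Y : ℤ), ?_⟩
    have h1 : (((B : ℤ) - Y : ℤ) : ℝ) ≠ 0 := by exact_mod_cast hcon
    have h2 : ((((B : ℤ) - Y : ℤ) : ℚ) : ℝ) = (((B : ℤ) - Y : ℤ) : ℝ) := by norm_cast
    rw [Rat.cast_div, h2, div_eq_iff h1]
    push_cast
    linarith
  have hBY : B = Y := by omega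
  refine ⟨?_, hBY⟩
  rw [hBY] at h
  exact_mod_cast add_right_cancel h

/-- **The unit of a repunit.** -/
theorem exponent_one {m s n : ℕ} (hn : Odd n) (hn3 : 3 ≤ n) (h : 9 * (m * s ^ 2) + 1 = 10 ^ n)
    {U V j X Y : ℕ} (hV : 1 ≤ V)
    (hUV : (U : ℤ) ^ 2 - (10 * m : ℕ) * (V : ℤ) ^ 2 = 1 ∨
      (U : ℤ) ^ 2 - (10 * m : ℕ) * (V : ℤ) ^ 2 = -1)
    (hX : X + 1 = 2 * 10 ^ n) (hXY : (X : ℤ) ^ 2 - (10 * m : ℕ) * (Y : ℤ) ^ 2 = 1)
    (hp : (U + V * Real.sqrt (10 * m : ℕ)) ^ j = X + Y * Real.sqrt (10 * m : ℕ))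
    (hd : ¬ IsSquare (10 * m)) : j = 1 := by
  set d : ℕ := 10 * m with hdm
  have hsq : Real.sqrt (d : ℝ) * Real.sqrt d = d := Real.mul_self_sqrt (Nat.cast_nonneg d)
  have hXz : (X : ℤ) + 1 = 2 * 10 ^ n := by exact_mod_cast hX
  rcases Nat.even_or_odd j with he | ho
  · exfalso
    obtain ⟨i, hi⟩ := he
    obtain ⟨A, B, h1, h2⟩ := pw d U V i
    have h3 : (((A ^ 2 + d * B ^ 2 : ℕ) : ℝ)) + ((2 * A * B : ℕ) : ℝ) * Real.sqrt d =
        X + Y * Real.sqrt d := by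
      rw [← hp, hi, pow_add, h1]
      push_cast
      linear_combination (-(B : ℝ) ^ 2) * hsq
    obtain ⟨h4, -⟩ := uniq hd h3
    have h4z : (A : ℤ) ^ 2 + d * (B : ℤ) ^ 2 = X := by exact_mod_cast h4
    have hnorm : (A : ℤ) ^ 2 - d * (B : ℤ) ^ 2 = 1 ∨ (A : ℤ) ^ 2 - d * (B : ℤ) ^ 2 = -1 := by
      rw [h2]
      rcases hUV with h5 | h5
      · left
        rw [h5, one_pow]
      · rw [h5]
        exact neg_one_pow_eq_or ℤ i
    obtain ⟨k, hk⟩ := hn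
    rcases hnorm with h5 | h5
    · -- `A ^ 2 = 10 ^ n`
      have h6 : (A : ℤ) ^ 2 = 10 ^ n := by linarith
      have h7 : A ^ 2 = 10 ^ n := by exact_mod_cast h6
      have e10 : 10 ^ n = (10 ^ k) ^ 2 * 10 := by
        rw [hk, pow_succ 10 (2 * k), pow_mul']
      have h8 : IsSquare (10 : ℕ) := by
        have h9 : (10 ^ k) ^ 2 ∣ A ^ 2 := by
          rw [h7, e10]
          exact dvd_mul_right _ _
        obtain ⟨c, hc⟩ := (Nat.pow_dvd_pow_iff (by norm_num)).1 h9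
        refine ⟨c, ?_⟩
        have h10 : (10 ^ k) ^ 2 * 10 = (10 ^ k) ^ 2 * (c * c) := by
          have : A ^ 2 = (10 ^ k) ^ 2 * (c * c) := by rw [hc]; ring
          rw [← this, h7, e10]
        exact Nat.eq_of_mul_eq_mul_left (by positivity) h10
      obtain ⟨c, hc⟩ := h8
      have : c < 4 := by nlinarith
      interval_cases c <;> omega
    · -- `m B ^ 2 = 10 ^ (n - 1)`
      have h6 : (d : ℤ) * B ^ 2 = 10 ^ n := by linarith
      have h7 : 10 * (m * B ^ 2) = 10 * 10 ^ (2 * k) := by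
        have : d * B ^ 2 = 10 ^ n := by exact_mod_cast h6
        rw [hdm, hk, pow_succ 10 (2 * k)] at this
        linarith
      have h8 : m ∣ 10 ^ (2 * k) := ⟨B ^ 2, by linarith⟩
      have h9 : m ∣ 9 * (m * s ^ 2) := ⟨9 * s ^ 2, by ring⟩
      have h10 : m ∣ 10 ^ n := h8.trans (pow_dvd_pow 10 (by omega))
      have h11 : m ∣ 1 := by
        rw [← h] at h10
        exact (Nat.dvd_add_right h9).1 h10
      have h12 : m = 1 := Nat.dvd_one.1 h11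
      rw [h12, one_mul] at h
      have h13 : (9 * s ^ 2 + 1) % 4 = 0 := by
        rw [h]
        obtain ⟨e, he⟩ : ∃ e, n = e + 2 := ⟨n - 2, by omega⟩
        rw [he, pow_add]
        omega
      rcases Nat.even_or_odd s with ⟨c, hc⟩ | ⟨c, hc⟩
      · rw [hc] at h13
        have : 9 * (c + c) ^ 2 + 1 = 4 * (9 * c ^ 2) + 1 := by ring
        omega
      · rw [hc] at h13
        have : 9 * (2 * c + 1) ^ 2 + 1 = 4 * (9 * c ^ 2 + 9 * c) + 10 := by ring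
        omega
  · have hnorm : (U : ℤ) ^ 2 - d * (V : ℤ) ^ 2 = 1 := by
      rcases hUV with h5 | h5
      · exact h5
      · exfalso
        obtain ⟨A, B, h1, h2⟩ := pw d U V j
        rw [hp] at h1
        obtain ⟨h3, h4⟩ := uniq hd h1
        rw [← h3, ← h4, hXY, h5, ho.neg_one_pow] at h2
        norm_num at h2
    have hs1 : 1 ≤ Real.sqrt (d : ℝ) := by
      rw [Real.one_le_sqrt]
      have : 1 ≤ d := by
        rcases Nat.eq_zero_or_pos d with h0 | h0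
        · exact absurd ⟨0, by rw [h0]⟩ hd
        · exact h0
      exact_mod_cast this
    have hU1 : 1 ≤ U := by
      rcases Nat.eq_zero_or_pos U with h0 | h0
      · rw [h0] at hnorm
        have : (0 : ℤ) ≤ d * (V : ℤ) ^ 2 := by positivity
        simp at hnorm
        linarith
      · exact h0
    have hV' : (1 : ℝ) ≤ V := by exact_mod_cast hV
    have hU' : (1 : ℝ) ≤ U := by exact_mod_cast hU1
    have hβ : 1 < (U : ℝ) + V * Real.sqrt d := by nlinarith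
    have hnr : (U : ℝ) ^ 2 - d * (V : ℝ) ^ 2 = 1 := by exact_mod_cast hnorm
    have hXr : (X : ℝ) ^ 2 - d * (Y : ℝ) ^ 2 = 1 := by exact_mod_cast hXY
    have hβ2 : ((U : ℝ) + V * Real.sqrt d) ^ 2 = 2 * ((U : ℤ) : ℝ) * (U + V * Real.sqrt d) - 1 := by
      push_cast
      linear_combination (V : ℝ) ^ 2 * hsq - hnr
    have hα2 : (((U : ℝ) + V * Real.sqrt d) ^ j) ^ 2 =
        2 * ((X : ℤ) : ℝ) * (U + V * Real.sqrt d) ^ j - 1 := by
      rw [hp]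
      push_cast
      linear_combination (Y : ℝ) ^ 2 * hsq - hXr
    have hUo : Odd (U : ℤ) := by
      rcases Int.even_or_odd (U : ℤ) with ⟨c, hc⟩ | h0
      · exfalso
        rw [hc, hdm] at hnorm
        push_cast at hnorm
        have : (1 : ℤ) = 2 * (2 * c ^ 2 - 5 * m * V ^ 2) := by linarith
        omega
      · exact h0
    exact odd_case hβ hβ2 hUo ho hn hXz hα2

end Pool.Agent.MP_945c24_nt
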