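import Pool.Agent.Lib.MP_945c24_nt.Reg

/-!
# MP_945c24_nt: assembly
-/

set_option autoImplicit false

open Finset

namespace Pool.Agent.MP_945c24_nt

open Pool.Per

theorem not_one {s n : ℕ} (hn3 : 3 ≤ n) (h : 9 * s ^ 2 + 1 = 10 ^ n) : False := by
  have h13 : (9 * s ^ 2 + 1) % 4 = 0 := by
    rw [h]
    obtain ⟨e, he⟩ : ∃ e, n = e + 2 := ⟨n - 2, by omega⟩
    rw [he, pow_add]
    omega
  rcases Nat.even_or_odd s with ⟨c, hc⟩ | ⟨c, hc⟩
  · rw [hc] at h13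
    have : 9 * (c + c) ^ 2 + 1 = 4 * (9 * c ^ 2) + 1 := by ring
    omega
  · rw [hc] at h13
    have : 9 * (2 * c + 1) ^ 2 + 1 = 4 * (9 * c ^ 2 + 9 * c) + 10 := by ring
    omega

theorem not_sq {m s n : ℕ} (hn3 : 3 ≤ n) (h : 9 * (m * s ^ 2) + 1 = 10 ^ n) :
    ¬ IsSquare (10 * m) := by
  rintro ⟨r, hr⟩
  have h2 : 2 ∣ r := by
    have : 2 ∣ r * r := ⟨5 * m, by linarith⟩
    rcases (Nat.prime_two.dvd_mul).1 this with h1 | h1 <;> exact h1
  obtain ⟨c, hc⟩ := h2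
  have h3 : 2 ∣ m := by
    have : 5 * m = 2 * (c * c) := by
      rw [hc] at hr
      linarith
    omega
  obtain ⟨e, he⟩ := h3
  obtain ⟨f, hf⟩ : ∃ f, n = f + 1 := ⟨n - 1, by omega⟩
  rw [he, hf, pow_succ 10 f] at h
  have : 9 * (2 * e * s ^ 2) = 2 * (9 * (e * s ^ 2)) := by ring
  omega

/-- The regulator bound for the unit of a repunit. -/
theorem main1 : ∃ C : ℝ, 0 < C ∧ ∀ n m s : ℕ, Odd n → 3 ≤ n → 9 * (m * s ^ 2) + 1 = 10 ^ n →
    (2 : ℝ) ^ m.primeFactors.card * n ≤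
      C * Real.sqrt m * Real.exp (chiSum (10 * m) (Nat.sqrt (10 * m))) := by
  obtain ⟨C₁, hC₁, hA⟩ := All.ana
  refine ⟨16 * C₁, by positivity, fun n m s hn hn3 h => ?_⟩
  have hd := not_sq hn3 h
  have hm0 : m ≠ 0 := by
    rintro rfl
    have : 10 ^ 1 ≤ 10 ^ n := Nat.pow_le_pow_right (by norm_num) (by omega)
    omega
  have hs0 : 1 ≤ s := by
    rcases Nat.eq_zero_or_pos s with h0 | h0
    · rw [h0] at h
      have : 10 ^ 1 ≤ 10 ^ n := Nat.pow_le_pow_right (by norm_num) (by omega)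
      omega
    · exact h0
  obtain ⟨k, hk⟩ := id hn
  have e10 : 10 ^ n = 10 * (10 ^ k) ^ 2 := by
    rw [hk, pow_succ 10 (2 * k), pow_mul', mul_comm]
  obtain ⟨X, hX⟩ : ∃ X : ℕ, X + 1 = 2 * 10 ^ n :=
    ⟨2 * 10 ^ n - 1, by have : 0 < 10 ^ n := by positivity
                        omega⟩
  have hY : 1 ≤ 6 * s * 10 ^ k := by
    have : 0 < 10 ^ k := by positivity
    have := Nat.mul_pos (Nat.mul_pos (by norm_num : 0 < 6) hs0) this
    omega
  have hXY : (X : ℤ) ^ 2 - (10 * m : ℕ) * ((6 * s * 10 ^ k : ℕ) : ℤ) ^ 2 = 1 := by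
    have h1 : (X : ℤ) = 20 * (10 ^ k) ^ 2 - 1 := by
      have : (X : ℤ) + 1 = 2 * 10 ^ n := by exact_mod_cast hX
      have h2 : (10 : ℤ) ^ n = 10 * (10 ^ k) ^ 2 := by exact_mod_cast e10
      rw [h2] at this
      linarith
    have h2 : 9 * ((m : ℤ) * s ^ 2) + 1 = 10 * (10 ^ k) ^ 2 := by
      rw [e10] at h
      exact_mod_cast h
    rw [h1]
    push_cast
    linear_combination (-40 * (10 ^ k : ℤ) ^ 2) * h2
  have hlog := log_le (10 * m) hd X (6 * s * 10 ^ k) hY hXY (fun U V j hV hUV hp =>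
    exponent_one hn hn3 h hV hUV hX hXY hp hd)
  have h1 : (n : ℝ) ≤ Real.log (X + ((6 * s * 10 ^ k : ℕ) : ℝ) * Real.sqrt (10 * m : ℕ)) := by
    have h2 : (10 : ℝ) ^ n ≤ X := by
      have h3 : 10 ^ n ≤ X := by
        have : 0 < 10 ^ n := by positivity
        omega
      exact_mod_cast h3
    have h4 : (10 : ℝ) ^ n ≤ X + ((6 * s * 10 ^ k : ℕ) : ℝ) * Real.sqrt (10 * m : ℕ) := by
      have : 0 ≤ ((6 * s * 10 ^ k : ℕ) : ℝ) * Real.sqrt (10 * m : ℕ) := by positivity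
      linarith
    have h5 : Real.log ((10 : ℝ) ^ n) = n * Real.log 10 := Real.log_pow 10 n
    have h6 : 1 ≤ Real.log 10 := by
      rw [Real.le_log_iff_exp_le (by norm_num)]
      have := Real.exp_one_lt_d9
      linarith
    calc (n : ℝ) = n * 1 := by ring
      _ ≤ n * Real.log 10 := mul_le_mul_of_nonneg_left h6 (Nat.cast_nonneg n)
      _ = Real.log ((10 : ℝ) ^ n) := h5.symm
      _ ≤ _ := Real.log_le_log (by positivity) h4
  have h2 : (2 : ℝ) ^ m.primeFactors.card ≤ (2 : ℝ) ^ (10 * m).primeFactors.card := by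
    refine pow_le_pow_right₀ (by norm_num) (card_le_card ?_)
    exact Nat.primeFactors_mono (dvd_mul_left _ _) (by omega)
  have h3 := All.rsum (10 * m) hd
  have h4 := hA (10 * m) hd
  have h5 : Real.sqrt ((10 * m : ℕ) : ℝ) ≤ 4 * Real.sqrt m := by
    rw [Real.sqrt_le_left (by positivity), mul_pow, Real.sq_sqrt (Nat.cast_nonneg m)]
    push_cast
    have : (0 : ℝ) ≤ m := Nat.cast_nonneg m
    linarith
  have h6 : 0 ≤ Real.exp (chiSum (10 * m) (Nat.sqrt (10 * m))) := (Real.exp_pos _).le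
  calc (2 : ℝ) ^ m.primeFactors.card * n ≤ (2 : ℝ) ^ (10 * m).primeFactors.card *
        Real.log (X + ((6 * s * 10 ^ k : ℕ) : ℝ) * Real.sqrt (10 * m : ℕ)) :=
        mul_le_mul h2 h1 (Nat.cast_nonneg n) (by positivity)
    _ ≤ 4 * ∑ x ∈ Rset (10 * m), Real.log (al (10 * m) x) := by rw [mul_comm]; exact hlog
    _ ≤ 4 * (C₁ * Real.sqrt ((10 * m : ℕ) : ℝ) *
        Real.exp (chiSum (10 * m) (Nat.sqrt (10 * m)))) := by linarith
    _ ≤ 4 * (C₁ * (4 * Real.sqrt m) * Real.exp (chiSum (10 * m) (Nat.sqrt (10 * m)))) := by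
        refine mul_le_mul_of_nonneg_left ?_ (by norm_num)
        exact mul_le_mul_of_nonneg_right (mul_le_mul_of_nonneg_left h5 hC₁.le) h6
    _ = _ := by ring

/-- The clean form. -/
theorem main2 : ∃ C : ℝ, 0 < C ∧ ∀ n m s : ℕ, Odd n → 3 ≤ n → 9 * (m * s ^ 2) + 1 = 10 ^ n →
    (2 : ℝ) ^ m.primeFactors.card * n ≤ C * Real.sqrt m * Real.log m := by
  obtain ⟨C, hC, h1⟩ := main1
  obtain ⟨C₂, hC₂, h2⟩ := mert_proof
  refine ⟨C * Real.exp C₂ * 5, by positivity, fun n m s hn hn3 h => ?_⟩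
  have hm2 : 2 ≤ m := by
    by_contra hcon
    have : m = 0 ∨ m = 1 := by omega
    rcases this with rfl | rfl
    · have : 10 ^ 1 ≤ 10 ^ n := Nat.pow_le_pow_right (by norm_num) (by omega)
      omega
    · rw [one_mul] at h
      exact not_one hn3 h
  refine (h1 n m s hn hn3 h).trans ?_
  have hN : 2 ≤ Nat.sqrt (10 * m) := by
    rw [Nat.le_sqrt]
    omega
  have h3 : chiSum (10 * m) (Nat.sqrt (10 * m)) ≤
      Real.log (Real.log (Nat.sqrt (10 * m) : ℕ)) + C₂ := by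
    have h4 : chiSum (10 * m) (Nat.sqrt (10 * m)) ≤
        ∑ p ∈ Nat.primesLE (Nat.sqrt (10 * m)), 1 / (p : ℝ) := by
      unfold chiSum
      refine (sum_le_sum (g := fun p : ℕ => 1 / (p : ℝ)) fun p _ => ?_).trans
        (sum_le_sum_of_subset_of_nonneg (filter_subset _ _) fun p _ _ => by positivity)
      have h5 : ((jacobiSym ((10 * m : ℕ) : ℤ) p : ℤ) : ℝ) ≤ 1 := by
        have : jacobiSym ((10 * m : ℕ) : ℤ) p ≤ 1 := by
          rcases jacobiSym.trichotomy ((10 * m : ℕ) : ℤ) p with h6 | h6 | h6 <;> rw [h6] <;> norm_num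
        exact_mod_cast this
      exact div_le_div_of_nonneg_right h5 (Nat.cast_nonneg p)
    have h5 := h2 (Nat.sqrt (10 * m)) hN
    rw [abs_le] at h5
    linarith [h5.2]
  have hlogN : 0 < Real.log (Nat.sqrt (10 * m) : ℕ) := by
    apply Real.log_pos
    have : (2 : ℝ) ≤ (Nat.sqrt (10 * m) : ℕ) := by exact_mod_cast hN
    linarith
  have h4 : Real.exp (chiSum (10 * m) (Nat.sqrt (10 * m))) ≤
      Real.exp C₂ * Real.log (Nat.sqrt (10 * m) : ℕ) := by
    refine (Real.exp_le_exp.2 h3).trans (le_of_eq ?_)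
    rw [Real.exp_add, Real.exp_log hlogN, mul_comm]
  have hm2r : (2 : ℝ) ≤ m := by exact_mod_cast hm2
  have h5 : Real.log (Nat.sqrt (10 * m) : ℕ) ≤ 5 * Real.log m := by
    have h6 : ((Nat.sqrt (10 * m) : ℕ) : ℝ) ≤ (m : ℝ) ^ 5 := by
      have h7 : ((Nat.sqrt (10 * m) : ℕ) : ℝ) ≤ ((10 * m : ℕ) : ℝ) := by
        exact_mod_cast Nat.sqrt_le_self _
      have h8 : (10 : ℝ) ≤ (m : ℝ) ^ 4 := by
        calc (10 : ℝ) ≤ 2 ^ 4 := by norm_num
          _ ≤ (m : ℝ) ^ 4 := pow_le_pow_left₀ (by norm_num) hm2r 4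
      push_cast at h7
      calc ((Nat.sqrt (10 * m) : ℕ) : ℝ) ≤ 10 * m := h7
        _ ≤ (m : ℝ) ^ 4 * m := mul_le_mul_of_nonneg_right h8 (by linarith)
        _ = (m : ℝ) ^ 5 := by ring
    have h7 : Real.log ((m : ℝ) ^ 5) = 5 * Real.log m := by
      rw [Real.log_pow]
      norm_num
    rw [← h7]
    refine Real.log_le_log ?_ h6
    have : (2 : ℝ) ≤ (Nat.sqrt (10 * m) : ℕ) := by exact_mod_cast hN
    linarith
  calc C * Real.sqrt m * Real.exp (chiSum (10 * m) (Nat.sqrt (10 * m))) ≤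
        C * Real.sqrt m * (Real.exp C₂ * (5 * Real.log m)) := by
        refine mul_le_mul_of_nonneg_left (h4.trans ?_) (by positivity)
        exact mul_le_mul_of_nonneg_left h5 (Real.exp_pos _).le
    _ = _ := by ring

end Pool.Agent.MP_945c24_nt
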