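import Pool.Agent.Lib.MP_45b5fd_nt.PER.All
import Pool.Agent.Lib.MP_945c24_nt.Fin

/-!
# MP_945c24_nt: the sharper bound outside few exponents
-/

set_option autoImplicit false

open Finset

namespace Pool.Agent.MP_945c24_nt

open Pool.Per

/-- The data of a repunit. -/
theorem data {n m s : ℕ} (hn : Odd n) (hn3 : 3 ≤ n) (h : 9 * (m * s ^ 2) + 1 = 10 ^ n) :
    ∃ X Y : ℕ, X + 1 = 2 * 10 ^ n ∧ 1 ≤ Y ∧ (X : ℤ) ^ 2 - (10 * m : ℕ) * (Y : ℤ) ^ 2 = 1 := by
  have hs0 : 1 ≤ s := by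
    rcases Nat.eq_zero_or_pos s with h0 | h0
    · rw [h0] at h
      have : 10 ^ 1 ≤ 10 ^ n := Nat.pow_le_pow_right (by norm_num) (by omega)
      omega
    · exact h0
  obtain ⟨k, hk⟩ := id hn
  have e10 : 10 ^ n = 10 * (10 ^ k) ^ 2 := by
    rw [hk, pow_succ 10 (2 * k), pow_mul', mul_comm]
  obtain ⟨X, hX⟩ : ∃ X : ℕ, X + 1 = 2 * 10 ^ n :=
    ⟨2 * 10 ^ n - 1, by have : 0 < 10 ^ n := by positivity
                        omega⟩
  have hY : 1 ≤ 6 * s * 10 ^ k := by
    have : 0 < 10 ^ k := by positivity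
    have := Nat.mul_pos (Nat.mul_pos (by norm_num : 0 < 6) hs0) this
    omega
  refine ⟨X, 6 * s * 10 ^ k, hX, hY, ?_⟩
  have h1 : (X : ℤ) = 20 * (10 ^ k) ^ 2 - 1 := by
    have : (X : ℤ) + 1 = 2 * 10 ^ n := by exact_mod_cast hX
    have h2 : (10 : ℤ) ^ n = 10 * (10 ^ k) ^ 2 := by exact_mod_cast e10
    rw [h2] at this
    linarith
  have h2 : 9 * ((m : ℤ) * s ^ 2) + 1 = 10 * (10 ^ k) ^ 2 := by
    rw [e10] at h
    exact_mod_cast h
  rw [h1]
  push_cast
  linear_combination (-40 * (10 ^ k : ℤ) ^ 2) * h2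

/-- Different exponents, different squarefree parts. -/
theorem inj {n n' m s s' : ℕ} (hn : Odd n) (hn3 : 3 ≤ n) (h : 9 * (m * s ^ 2) + 1 = 10 ^ n)
    (hn' : Odd n') (hn3' : 3 ≤ n') (h' : 9 * (m * s' ^ 2) + 1 = 10 ^ n') : n = n' := by
  have hd := not_sq hn3 h
  obtain ⟨X, Y, hX, hY, hXY⟩ := data hn hn3 h
  obtain ⟨X', Y', hX', hY', hXY'⟩ := data hn' hn3' h'
  have e1 := eq_prod (10 * m) hd X Y hY hXY (fun U V j hV hUV hp =>
    exponent_one hn hn3 h hV hUV hX hXY hp hd)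
  have e2 := eq_prod (10 * m) hd X' Y' hY' hXY' (fun U V j hV hUV hp =>
    exponent_one hn' hn3' h' hV hUV hX' hXY' hp hd)
  rw [e1] at e2
  obtain ⟨e3, -⟩ := uniq hd e2
  rw [e3, hX'] at hX
  have e4 : 10 ^ n' = 10 ^ n := by omega
  exact (Nat.pow_right_injective (le_refl 2 |>.trans (by norm_num) : 2 ≤ 10) e4).symm

theorem omega_le {m : ℕ} (hm : m ≠ 0) : (16 : ℕ) ^ m.primeFactors.card ≤ 16 ^ 6 * m := by
  classical
  have h1 : (m.primeFactors.filter (fun p => p < 16)).card ≤ 6 := by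
    have : m.primeFactors.filter (fun p => p < 16) ⊆ {2, 3, 5, 7, 11, 13} := by
      intro p hp
      rw [mem_filter] at hp
      have h2 := Nat.prime_of_mem_primeFactors hp.1
      have h3 := hp.2
      interval_cases p <;> first | (simp; done) | exact absurd h2 (by norm_num)
    exact (card_le_card this).trans (by decide)
  have h2 : (16 : ℕ) ^ (m.primeFactors.filter (fun p => ¬ p < 16)).card ≤ m := by
    calc (16 : ℕ) ^ (m.primeFactors.filter (fun p => ¬ p < 16)).card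
        = ∏ p ∈ m.primeFactors.filter (fun p => ¬ p < 16), 16 := by rw [prod_const]
      _ ≤ ∏ p ∈ m.primeFactors.filter (fun p => ¬ p < 16), p := by
          refine prod_le_prod' fun p hp => ?_
          have := (mem_filter.1 hp).2
          omega
      _ ≤ ∏ p ∈ m.primeFactors, p := by
          refine prod_le_prod_of_subset_of_one_le' (filter_subset _ _) fun p hp _ => ?_
          exact (Nat.prime_of_mem_primeFactors hp).one_lt.le
      _ ≤ m := Nat.le_of_dvd (Nat.pos_of_ne_zero hm) (Nat.prod_primeFactors_dvd m)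
  have h3 := card_filter_add_card_filter_not (s := m.primeFactors) (fun p => p < 16)
  rw [← h3, pow_add]
  exact Nat.mul_le_mul (Nat.pow_le_pow_right (by norm_num) h1) h2

theorem two_le {n m s : ℕ} (hn3 : 3 ≤ n) (h : 9 * (m * s ^ 2) + 1 = 10 ^ n) : 2 ≤ m := by
  by_contra hcon
  have : m = 0 ∨ m = 1 := by omega
  rcases this with rfl | rfl
  · have : 10 ^ 1 ≤ 10 ^ n := Nat.pow_le_pow_right (by norm_num) (by omega)
    omega
  · rw [one_mul] at h
    exact not_one hn3 h

theorem sqf {n m s : ℕ} (hn3 : 3 ≤ n) (h : 9 * (m * s ^ 2) + 1 = 10 ^ n) (hm : Squarefree m) :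
    Squarefree (10 * m) := by
  have hc : Nat.Coprime 10 m := by
    have h1 : Nat.Coprime (10 ^ n) m := by
      rw [← h]
      have : 9 * (m * s ^ 2) + 1 = 1 + (9 * s ^ 2) * m := by ring
      rw [this]
      exact (Nat.coprime_add_mul_right_left 1 m (9 * s ^ 2)).2 (Nat.coprime_one_left m)
    exact Nat.Coprime.coprime_dvd_left (dvd_pow_self 10 (by omega)) h1
  rw [Nat.squarefree_mul hc]
  refine ⟨?_, hm⟩
  rw [show (10 : ℕ) = 2 * 5 by norm_num, Nat.squarefree_mul (by norm_num)]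
  exact ⟨Nat.prime_two.squarefree, Nat.prime_five.squarefree⟩

/-- Very large squarefree parts. -/
theorem large {n m : ℕ} (hm : n ^ 4 ≤ m) (hm0 : m ≠ 0) :
    (2 : ℝ) ^ m.primeFactors.card * n ≤ 64 * Real.sqrt m := by
  have h1 : ((16 : ℝ)) ^ m.primeFactors.card ≤ 16 ^ 6 * m := by exact_mod_cast omega_le hm0
  have h2 : (n : ℝ) ^ 4 ≤ m := by exact_mod_cast hm
  have h3 : ((2 : ℝ) ^ m.primeFactors.card * n) ^ 4 ≤ (64 * Real.sqrt m) ^ 4 := by
    have e1 : ((2 : ℝ) ^ m.primeFactors.card * n) ^ 4 =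
        16 ^ m.primeFactors.card * (n : ℝ) ^ 4 := by
      rw [mul_pow, ← pow_mul, mul_comm m.primeFactors.card 4, pow_mul]
      norm_num
    have e2 : (64 * Real.sqrt m) ^ 4 = 16 ^ 6 * (m : ℝ) * m := by
      have : Real.sqrt (m : ℝ) ^ 2 = m := Real.sq_sqrt (Nat.cast_nonneg m)
      calc (64 * Real.sqrt m) ^ 4 = 64 ^ 4 * (Real.sqrt (m : ℝ) ^ 2) ^ 2 := by ring
        _ = _ := by rw [this]; ring
    rw [e1, e2]
    exact mul_le_mul h1 h2 (by positivity) (by positivity)
  exact le_of_pow_le_pow_left₀ (by norm_num) (by positivity) h3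

/-- The sharper bound outside few exponents. -/
theorem main3 : ∃ C : ℝ, 0 < C ∧ ∀ N H : ℕ, 2 ≤ N → 1 ≤ H →
    (({n : ℕ | Odd n ∧ 3 ≤ n ∧ n ≤ N ∧ ∃ m s : ℕ, Squarefree m ∧ 9 * (m * s ^ 2) + 1 = 10 ^ n ∧
      C * Real.sqrt m * max (H : ℝ) (Real.log (Real.log m)) <
        (2 : ℝ) ^ m.primeFactors.card * n} : Set ℕ).ncard : ℝ) ≤
      Real.exp (C * (1 + Real.log N / H) * Real.log (2 + Real.log N / H)) := by
  classical
  obtain ⟨C₀, hC₀, h0⟩ := main1
  obtain ⟨B, hB, hKW⟩ := kw_proof All.tail mert_proof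
  obtain ⟨C₁, hC₁, hCW⟩ := cw_proof All.mw
  have hCpos : 0 < max (3 * C₀ * B) (max 64 (32 * C₁)) :=
    lt_of_lt_of_le (by norm_num : (0 : ℝ) < 64) ((le_max_left _ _).trans (le_max_right _ _))
  refine ⟨max (3 * C₀ * B) (max 64 (32 * C₁)), hCpos, fun N H hN hH => ?_⟩
  have hCa : 3 * C₀ * B ≤ max (3 * C₀ * B) (max 64 (32 * C₁)) := le_max_left _ _
  have hCb : 64 ≤ max (3 * C₀ * B) (max 64 (32 * C₁)) :=
    (le_max_left _ _).trans (le_max_right _ _)
  have hCc : 32 * C₁ ≤ max (3 * C₀ * B) (max 64 (32 * C₁)) :=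
    (le_max_right _ _).trans (le_max_right _ _)
  generalize max (3 * C₀ * B) (max 64 (32 * C₁)) = C at *
  set E : Set ℕ := {n : ℕ | Odd n ∧ 3 ≤ n ∧ n ≤ N ∧ ∃ m s : ℕ, Squarefree m ∧
      9 * (m * s ^ 2) + 1 = 10 ^ n ∧ C * Real.sqrt m * max (H : ℝ) (Real.log (Real.log m)) <
        (2 : ℝ) ^ m.primeFactors.card * n} with hE
  have hch : ∀ n : ℕ, ∃ m s : ℕ, n ∈ E → Squarefree m ∧ 9 * (m * s ^ 2) + 1 = 10 ^ n ∧
      C * Real.sqrt m * max (H : ℝ) (Real.log (Real.log m)) <
        (2 : ℝ) ^ m.primeFactors.card * n := by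
    intro n
    by_cases hn : n ∈ E
    · obtain ⟨-, -, -, m, s, h⟩ := hn
      exact ⟨m, s, fun _ => h⟩
    · exact ⟨0, 0, fun h => absurd h hn⟩
  choose f g hfg using hch
  have hcard : E.ncard ≤ (((Icc 1 (10 * N ^ 4)).filter
      (fun m => Squarefree m ∧ Bad2 (10 * N ^ 4) H m) : Finset ℕ) : Set ℕ).ncard := by
    refine Set.ncard_le_ncard_of_injOn (fun n => 10 * f n) ?_ ?_ (finite_toSet _)
    · intro n hn
      obtain ⟨hsq, hR, hbad⟩ := hfg n hn
      obtain ⟨hodd, hn3, hnN, -⟩ := hn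
      have hm2 := two_le hn3 hR
      have hH1 : (1 : ℝ) ≤ H := by exact_mod_cast hH
      have hmax1 : (1 : ℝ) ≤ max (H : ℝ) (Real.log (Real.log (f n : ℕ))) :=
        hH1.trans (le_max_left _ _)
      have hmN : f n ≤ N ^ 4 := by
        by_contra hcon
        push Not at hcon
        have h1 := large (n := n) ((Nat.pow_le_pow_left hnN 4).trans hcon.le) (by omega)
        have h2 : 64 * Real.sqrt (f n : ℕ) ≤
            C * Real.sqrt (f n : ℕ) * max (H : ℝ) (Real.log (Real.log (f n : ℕ))) := by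
          have h3 : 64 * Real.sqrt (f n : ℕ) ≤ C * Real.sqrt (f n : ℕ) :=
            mul_le_mul_of_nonneg_right hCb (Real.sqrt_nonneg _)
          have h4 : C * Real.sqrt (f n : ℕ) * 1 ≤
              C * Real.sqrt (f n : ℕ) * max (H : ℝ) (Real.log (Real.log (f n : ℕ))) :=
            mul_le_mul_of_nonneg_left hmax1 (by positivity)
          linarith
        linarith
      rw [mem_coe, mem_filter, mem_Icc]
      refine ⟨⟨by omega, by omega⟩, sqf hn3 hR hsq, ?_⟩
      by_contra hB2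
      have h1 := hKW (10 * N ^ 4) H (10 * f n) 1 hH (sqf hn3 hR hsq) (by omega) (by omega) hB2
        one_pos (by omega)
      rw [one_pow, mul_one] at h1
      have h2 := h0 n (f n) (g n) hodd hn3 hR
      have hm2r : (2 : ℝ) ≤ (f n : ℕ) := by exact_mod_cast hm2
      have hlogm : 0 < Real.log (f n : ℕ) := Real.log_pos (by linarith)
      have h3 : Real.log (Real.log ((10 * f n : ℕ) : ℝ)) ≤
          3 * max (H : ℝ) (Real.log (Real.log (f n : ℕ))) := by
        have e1 : Real.log ((10 * f n : ℕ) : ℝ) ≤ 5 * Real.log (f n : ℕ) := by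
          have e2 : ((10 * f n : ℕ) : ℝ) ≤ ((f n : ℕ) : ℝ) ^ 5 := by
            have h8 : (10 : ℝ) ≤ ((f n : ℕ) : ℝ) ^ 4 := by
              calc (10 : ℝ) ≤ 2 ^ 4 := by norm_num
                _ ≤ ((f n : ℕ) : ℝ) ^ 4 := pow_le_pow_left₀ (by norm_num) hm2r 4
            push_cast
            calc (10 : ℝ) * (f n : ℕ) ≤ ((f n : ℕ) : ℝ) ^ 4 * (f n : ℕ) :=
                  mul_le_mul_of_nonneg_right h8 (by linarith)
              _ = ((f n : ℕ) : ℝ) ^ 5 := by ring
          have e3 : Real.log (((f n : ℕ) : ℝ) ^ 5) = 5 * Real.log (f n : ℕ) := by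
            rw [Real.log_pow]
            norm_num
          rw [← e3]
          exact Real.log_le_log (by positivity) e2
        have e4 : 0 < Real.log ((10 * f n : ℕ) : ℝ) := by
          apply Real.log_pos
          push_cast
          linarith
        have e5 : Real.log 5 ≤ 2 := by
          rw [Real.log_le_iff_le_exp (by norm_num)]
          have e6 : (2.7 : ℝ) ≤ Real.exp 1 := by linarith [Real.exp_one_gt_d9]
          have e7 : Real.exp 2 = Real.exp 1 * Real.exp 1 := by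
            rw [← Real.exp_add]
            norm_num
          rw [e7]
          nlinarith
        calc Real.log (Real.log ((10 * f n : ℕ) : ℝ)) ≤ Real.log (5 * Real.log (f n : ℕ)) :=
              Real.log_le_log e4 e1
          _ = Real.log 5 + Real.log (Real.log (f n : ℕ)) :=
              Real.log_mul (by norm_num) hlogm.ne'
          _ ≤ 2 + max (H : ℝ) (Real.log (Real.log (f n : ℕ))) :=
              add_le_add e5 (le_max_right _ _)
          _ ≤ _ := by linarith
      have h4 : max (H : ℝ) (Real.log (Real.log ((10 * f n : ℕ) : ℝ))) ≤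
          3 * max (H : ℝ) (Real.log (Real.log (f n : ℕ))) := by
        refine max_le ?_ h3
        have := le_max_left (H : ℝ) (Real.log (Real.log (f n : ℕ)))
        linarith
      have h5 : (2 : ℝ) ^ (f n).primeFactors.card * n ≤
          C * Real.sqrt (f n : ℕ) * max (H : ℝ) (Real.log (Real.log (f n : ℕ))) := by
        calc (2 : ℝ) ^ (f n).primeFactors.card * n ≤ C₀ * Real.sqrt (f n : ℕ) *
              Real.exp (chiSum (10 * f n) (Nat.sqrt (10 * f n))) := h2
          _ ≤ C₀ * Real.sqrt (f n : ℕ) *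
              (B * (3 * max (H : ℝ) (Real.log (Real.log (f n : ℕ))))) := by
              refine mul_le_mul_of_nonneg_left (h1.trans ?_) (by positivity)
              exact mul_le_mul_of_nonneg_left h4 hB.le
          _ = (3 * C₀ * B) * (Real.sqrt (f n : ℕ) *
              max (H : ℝ) (Real.log (Real.log (f n : ℕ)))) := by ring
          _ ≤ C * (Real.sqrt (f n : ℕ) * max (H : ℝ) (Real.log (Real.log (f n : ℕ)))) := by
              refine mul_le_mul_of_nonneg_right hCa ?_
              have : 0 ≤ max (H : ℝ) (Real.log (Real.log (f n : ℕ))) := by linarith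
              positivity
          _ = _ := by ring
      linarith
    · intro a ha b hb hab
      obtain ⟨-, hRa, -⟩ := hfg a ha
      obtain ⟨-, hRb, -⟩ := hfg b hb
      have hab' : f a = f b := by
        have : 10 * f a = 10 * f b := hab
        omega
      rw [← hab'] at hRb
      exact inj ha.1 ha.2.1 hRa hb.1 hb.2.1 hRb
  rw [Set.ncard_coe_finset] at hcard
  have hcard' : (E.ncard : ℝ) ≤ (((Icc 1 (10 * N ^ 4)).filter
      (fun m => Squarefree m ∧ Bad2 (10 * N ^ 4) H m)).card : ℝ) := by exact_mod_cast hcard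
  have hX2 : 2 ≤ 10 * N ^ 4 := by
    have : 0 < N ^ 4 := by positivity
    omega
  refine (hcard'.trans (hCW (10 * N ^ 4) H hX2 hH)).trans (Real.exp_le_exp.2 ?_)
  have hN2 : (2 : ℝ) ≤ N := by exact_mod_cast hN
  have hH0 : (0 : ℝ) < H := by exact_mod_cast hH
  have hlN : 0 ≤ Real.log (N : ℝ) := Real.log_nonneg (by linarith)
  have hlX : Real.log ((10 * N ^ 4 : ℕ) : ℝ) ≤ 8 * Real.log N := by
    have e1 : ((10 * N ^ 4 : ℕ) : ℝ) ≤ (N : ℝ) ^ 8 := by
      have h8 : (10 : ℝ) ≤ (N : ℝ) ^ 4 := by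
        calc (10 : ℝ) ≤ 2 ^ 4 := by norm_num
          _ ≤ (N : ℝ) ^ 4 := pow_le_pow_left₀ (by norm_num) hN2 4
      push_cast
      calc (10 : ℝ) * (N : ℝ) ^ 4 ≤ (N : ℝ) ^ 4 * (N : ℝ) ^ 4 :=
            mul_le_mul_of_nonneg_right h8 (by positivity)
        _ = (N : ℝ) ^ 8 := by ring
    have e3 : Real.log ((N : ℝ) ^ 8) = 8 * Real.log N := by
      rw [Real.log_pow]
      norm_num
    rw [← e3]
    exact Real.log_le_log (by positivity) e1
  have hlX0 : 0 ≤ Real.log ((10 * N ^ 4 : ℕ) : ℝ) :=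
    Real.log_nonneg (by exact_mod_cast (by omega : 1 ≤ 10 * N ^ 4))
  obtain ⟨y, hy⟩ : ∃ y : ℝ, y = Real.log N / H := ⟨_, rfl⟩
  have hy0 : 0 ≤ y := by rw [hy]; positivity
  have h8y : Real.log ((10 * N ^ 4 : ℕ) : ℝ) / H ≤ 8 * y := by
    rw [hy, ← mul_div_assoc]
    exact div_le_div_of_nonneg_right hlX hH0.le
  have hz0 : 0 ≤ Real.log ((10 * N ^ 4 : ℕ) : ℝ) / H := by positivity
  rw [← hy]
  have hl2 : 0 < Real.log 2 := Real.log_pos (by norm_num)
  have hly : Real.log 2 ≤ Real.log (2 + y) := Real.log_le_log (by norm_num) (by linarith)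
  have hlog : Real.log (2 + Real.log ((10 * N ^ 4 : ℕ) : ℝ) / H) ≤ 4 * Real.log (2 + y) := by
    calc Real.log (2 + Real.log ((10 * N ^ 4 : ℕ) : ℝ) / H) ≤ Real.log (2 ^ 3 * (2 + y)) :=
          Real.log_le_log (by linarith) (by linarith)
      _ = 3 * Real.log 2 + Real.log (2 + y) := by
          rw [Real.log_mul (by norm_num) (by linarith), Real.log_pow]
          norm_num
      _ ≤ _ := by linarith
  have hlog0 : 0 ≤ Real.log (2 + Real.log ((10 * N ^ 4 : ℕ) : ℝ) / H) :=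
    Real.log_nonneg (by linarith)
  calc C₁ * (1 + Real.log ((10 * N ^ 4 : ℕ) : ℝ) / H) *
        Real.log (2 + Real.log ((10 * N ^ 4 : ℕ) : ℝ) / H) ≤
        C₁ * (8 * (1 + y)) * (4 * Real.log (2 + y)) := by
        refine mul_le_mul ?_ hlog hlog0 (by positivity)
        exact mul_le_mul_of_nonneg_left (by linarith) hC₁.le
    _ = 32 * C₁ * ((1 + y) * Real.log (2 + y)) := by ring
    _ ≤ C * ((1 + y) * Real.log (2 + y)) := by
        refine mul_le_mul_of_nonneg_right hCc ?_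
        have : 0 ≤ Real.log (2 + y) := by linarith
        positivity
    _ = _ := by ring

end Pool.Agent.MP_945c24_nt
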