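import Pool.Agent.Lib.MP_45b5fd_nt.PER.All1
import Pool.Agent.Lib.MP_945c24_nt.Alg

/-!
# MP_945c24_nt: a unit that is not a proper power is small
-/

set_option autoImplicit false

open Finset

namespace Pool.Agent.MP_945c24_nt

open Pool.Per

/-- The product over several periods. -/
theorem prod_mul (d : ℕ) (x : ℕ × ℕ) (n : ℕ) (h : (step d)^[n] x = x) (j : ℕ) :
    ∏ i ∈ range (n * j), al d ((step d)^[i] x) =
      (∏ i ∈ range n, al d ((step d)^[i] x)) ^ j := by
  induction j with
  | zero => simp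
  | succ j ih =>
    rw [Nat.mul_succ, prod_range_add, ih, pow_succ]
    congr 1
    refine prod_congr rfl fun i _ => ?_
    congr 1
    have h1 : (step d)^[n * j] x = x := by
      have : Function.IsPeriodicPt (step d) n x := h
      exact this.mul_const j
    rw [add_comm, Function.iterate_add_apply, h1]

/-- A unit of norm `1` that is no proper power is the product over the minimal period. -/
theorem eq_prod (d : ℕ) (hd : ¬ IsSquare d) (X Y : ℕ) (hY : 1 ≤ Y)
    (hXY : (X : ℤ) ^ 2 - d * (Y : ℤ) ^ 2 = 1)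
    (hj : ∀ U V j : ℕ, 1 ≤ V → ((U : ℤ) ^ 2 - d * (V : ℤ) ^ 2 = 1 ∨
      (U : ℤ) ^ 2 - d * (V : ℤ) ^ 2 = -1) →
      (U + V * Real.sqrt d) ^ j = X + Y * Real.sqrt d → j = 1) :
    ∏ i ∈ range (Function.minimalPeriod (step d) (x0 d)), al d ((step d)^[i] (x0 d)) =
      X + Y * Real.sqrt d := by
  have hR : RED_Stmt := All.red
  have hx0 : Red d (x0 d) := (hR d hd).1
  obtain ⟨N, hN1, hNper, hNprod⟩ := PELL.pell_proof hR d hd X Y hY (Or.inl hXY)
  have hn0 : 0 < Function.minimalPeriod (step d) (x0 d) :=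
    Function.IsPeriodicPt.minimalPeriod_pos hN1 hNper
  have hn0per : (step d)^[Function.minimalPeriod (step d) (x0 d)] (x0 d) = x0 d :=
    Function.iterate_minimalPeriod
  have hdvd : Function.minimalPeriod (step d) (x0 d) ∣ N :=
    Function.IsPeriodicPt.minimalPeriod_dvd hNper
  generalize Function.minimalPeriod (step d) (x0 d) = n0 at *
  obtain ⟨j, rfl⟩ := hdvd
  obtain ⟨U, V, hV, hnorm, hprod⟩ := unit_proof hR d hd (x0 d) hx0 n0 hn0 hn0per
  rw [prod_mul d (x0 d) n0 hn0per j, hprod] at hNprod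
  have hj1 : j = 1 := hj U V j hV hnorm hNprod
  rw [hj1, pow_one] at hNprod
  rw [hprod, hNprod]

/-- If a unit of norm `1` of `ℤ[√d]` is no proper power, its logarithm is bounded by the sum over
the reduced points, with the factor `2 ^ ω(d)`. -/
theorem log_le (d : ℕ) (hd : ¬ IsSquare d) (X Y : ℕ) (hY : 1 ≤ Y)
    (hXY : (X : ℤ) ^ 2 - d * (Y : ℤ) ^ 2 = 1)
    (hj : ∀ U V j : ℕ, 1 ≤ V → ((U : ℤ) ^ 2 - d * (V : ℤ) ^ 2 = 1 ∨
      (U : ℤ) ^ 2 - d * (V : ℤ) ^ 2 = -1) →
      (U + V * Real.sqrt d) ^ j = X + Y * Real.sqrt d → j = 1) :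
    Real.log (X + Y * Real.sqrt d) * (2 : ℝ) ^ d.primeFactors.card ≤
      4 * ∑ x ∈ Rset d, Real.log (al d x) := by
  classical
  have hR : RED_Stmt := All.red
  have hU : UNIT_Stmt := unit_proof hR
  have hP : PELL_Stmt := PELL.pell_proof hR
  have hx0 : Red d (x0 d) := (hR d hd).1
  have hprod := eq_prod d hd X Y hY hXY hj
  have hmin : ∀ n, 1 ≤ n → (step d)^[n] (x0 d) = x0 d →
      Function.minimalPeriod (step d) (x0 d) ≤ n := by
    intro n h1 h2
    exact Function.IsPeriodicPt.minimalPeriod_le h1 h2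
  generalize Function.minimalPeriod (step d) (x0 d) = n0 at *
  have hpos : ∀ i, 1 < al d ((step d)^[i] (x0 d)) := fun i =>
    Gen.al_pos hR d hd _ (Gen.red_iter hR d hd (x0 d) hx0 i)
  have hLsum : Real.log (X + Y * Real.sqrt d) =
      ∑ i ∈ range n0, Real.log (al d ((step d)^[i] (x0 d))) := by
    rw [← hprod, Real.log_prod]
    intro i _
    have := hpos i
    positivity
  obtain ⟨F, hF, hFc⟩ := amb_proof d hd
  let F' : Finset {x : ℕ × ℕ // Red d x} :=
    F.attach.map ⟨fun x => ⟨x.1, (hF x.1 x.2).1⟩, fun a b hab => by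
      have := congrArg (fun z : {x : ℕ × ℕ // Red d x} => z.1) hab
      exact Subtype.ext this⟩
  have hF'c : F'.card = F.card := by rw [card_map, card_attach]
  have hF' : ∀ x ∈ F', Gen.tau hR d hd x = x := by
    intro x hx
    rw [mem_map] at hx
    obtain ⟨y, -, rfl⟩ := hx
    exact Subtype.ext (hF y.1 y.2).2
  have hL : ∀ x, Real.log (X + Y * Real.sqrt d) ≤
      ∑ i ∈ range (Function.minimalPeriod (Gen.sig hR d hd) x),
        Real.log (al d ((Gen.sig hR d hd ^ i) x).1) := by
    intro x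
    have hm := Gen.minPer_pos (Gen.sig hR d hd) x
    have hm2 : (step d)^[Function.minimalPeriod (Gen.sig hR d hd) x] x.1 = x.1 := by
      rw [← Gen.sig_pow hR d hd, ← Equiv.Perm.iterate_eq_pow, Function.iterate_minimalPeriod]
    generalize Function.minimalPeriod (Gen.sig hR d hd) x = m at *
    obtain ⟨X', Y', hY', hN', hprod'⟩ := hU d hd x.1 x.2 m hm hm2
    obtain ⟨n, hn, hn2, hprod2⟩ := hP d hd X' Y' hY' hN'
    have h1 : ∑ i ∈ range m, Real.log (al d ((Gen.sig hR d hd ^ i) x).1) =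
        ∑ i ∈ range n, Real.log (al d ((step d)^[i] (x0 d))) := by
      have h2 : ∑ i ∈ range m, Real.log (al d ((Gen.sig hR d hd ^ i) x).1) =
          Real.log (∏ i ∈ range m, al d ((step d)^[i] x.1)) := by
        rw [Real.log_prod]
        · refine sum_congr rfl (fun i _ => ?_)
          rw [Gen.sig_pow]
        · intro i _
          have := Gen.al_pos hR d hd _ (Gen.red_iter hR d hd x.1 x.2 i)
          positivity
      rw [h2, hprod', ← hprod2, Real.log_prod]
      intro i _
      have := hpos i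
      positivity
    rw [h1, hLsum]
    refine sum_le_sum_of_subset_of_nonneg ?_ fun i _ _ => (Real.log_pos (hpos i)).le
    exact range_subset_range.2 (hmin n hn hn2)
  have hmain := Gen.sum_le (Gen.sig hR d hd) (Gen.tau hR d hd) (Gen.tau_sig hR d hd)
    (fun x => Real.log (al d x.1)) (fun x => (Real.log_pos (Gen.al_pos hR d hd x.1 x.2)).le)
    F' hF' (Real.log (X + Y * Real.sqrt d)) hL
  rw [hF'c] at hmain
  have hsum : ∑ x ∈ Rset d, Real.log (al d x) =
      ∑ x : {x : ℕ × ℕ // Red d x}, Real.log (al d x.1) :=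
    sum_subtype (Rset d) (Gen.mem_Rset d) (fun x => Real.log (al d x))
  rw [hsum]
  have h6 : (2 : ℝ) ^ d.primeFactors.card ≤ 2 * F.card := by exact_mod_cast hFc
  have h7 : 0 ≤ Real.log (X + Y * Real.sqrt d) := by
    rw [hLsum]
    exact sum_nonneg fun i _ => (Real.log_pos (hpos i)).le
  have h8 := mul_le_mul_of_nonneg_left h6 h7
  linarith

end Pool.Agent.MP_945c24_nt
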